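import Pool.Agent.Q206.Ioe.Main

set_option autoImplicit false

/-!
# `IOE(2 ^ 2 ^ n)` is Muchnik equivalent to `IOE(2 ^ 2 ^ (n ^ m))` (MP_2c929a_lc)

Idea (`Q206.Ioe.lemmaA`): split the arguments into blocks of length `J = 2 ^ i` and the arguments
of the given `g` into windows of length `J ^ 2`. Suppose every computable function `c` with
`c i < F i ^ (2 * J)` is infinitely often among the `J ^ 2` values of `g` on window `i`. Write
such a number as a pair of two words of length `J` over the alphabet `F i`. Fewer than `J` words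
occur as first coordinate more than `J` times in a window, so `g` computes a `u₁` which on block
`i` agrees somewhere with each of them. If `u₁` is not in `IOE(F)`, a computable `r₁ < F` is
eventually different from `u₁`; so for almost all `i` the word of `r₁` on block `i` is the first
coordinate of at most `J` values in the window, and `g` computes (using `r₁`) a `u₂` which on
block `i` agrees somewhere with each of their second coordinates. This `u₂` is in `IOE(F)`.
-/

namespace Pool.Agent.Results.MP_2c929a_lc.DoubleExpPoly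

open Filter Q206.Ioe

/-- `B ≡_W C` -/
def MuchEquiv (B C : Set (ℕ → ℕ)) : Prop := MuchLE B C ∧ MuchLE C B

/-- `B <_W C` -/
def MuchLT (B C : Set (ℕ → ℕ)) : Prop := MuchLE B C ∧ ¬ MuchLE C B

/-- order functions: computable, nondecreasing, unbounded -/
def IsOrder (f : ℕ → ℕ) : Prop := Computable f ∧ Monotone f ∧ ∀ N, ∃ n, N < f n

theorem IOE_nonempty (h : ℕ → ℕ) : (IOE h).Nonempty := by
  have hcount : Set.Countable {f : ℕ → ℕ | Computable f} := by
    rw [Set.countable_iff_exists_injOn]
    have hc : ∀ f : ℕ → ℕ, Computable f → ∃ c : Nat.Partrec.Code, c.eval = (f : ℕ →. ℕ) :=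
      fun f hf => Nat.Partrec.Code.exists_code.1 (Partrec.nat_iff.1 hf)
    classical
    refine ⟨fun f => if hf : Computable f then Encodable.encode (hc f hf).choose else 0, ?_⟩
    intro f hf g hg hfg
    have hf' : Computable f := hf
    have hg' : Computable g := hg
    simp only [hf', hg', dif_pos, Encodable.encode_inj] at hfg
    have h1 := (hc f hf').choose_spec
    have h2 := (hc g hg').choose_spec
    rw [hfg, h2] at h1
    funext n
    have h3 := congrFun h1 n
    exact (Part.some_injective h3).symm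
  obtain ⟨g, hg⟩ := hcount.exists_eq_range ⟨fun _ => 0, Computable.const 0⟩
  refine ⟨fun n => g n.unpair.1 n, ?_⟩
  intro r hr _
  have hr' : r ∈ Set.range g := by rw [← hg]; exact hr
  obtain ⟨e, he⟩ := hr'
  refine Set.infinite_of_injective_forall_mem (f := fun k => Nat.pair e k) ?_ ?_
  · intro a b hab
    exact (Nat.pair_eq_pair.1 hab).2
  · intro k
    show g (Nat.pair e k).unpair.1 (Nat.pair e k) = r (Nat.pair e k)
    rw [Nat.unpair_pair, he]

theorem equiv_of_between {m : ℕ} {f : ℕ → ℕ} (hpos : ∀ n, 0 < f n)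
    (hf : ∀ᶠ n in atTop, 2 ^ 2 ^ n ≤ f n ∧ f n ≤ 2 ^ 2 ^ (n ^ m)) :
    MuchEquiv (IOE (fun n => 2 ^ 2 ^ n)) (IOE f) := by
  obtain ⟨N, hN⟩ := eventually_atTop.1 hf
  constructor
  · exact MuchLE.of_subset (IOE_subset hpos (N := N) (fun n hn => (hN n hn).1))
  · exact (MuchLE.of_subset (IOE_subset (fun n => by positivity) (N := N)
      (fun n hn => (hN n hn).2))).trans (main m)

theorem result :
    -- the answer to Q1 is yes
    (∃ f : ℕ → ℕ, Computable f ∧ (∀ a : ℕ, ∀ᶠ n in atTop, 2 ^ (a ^ n) < f n) ∧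
      MuchEquiv (IOE (fun n => 2 ^ 2 ^ n)) (IOE f)) ∧
    -- all bounds between `2 ^ 2 ^ n` and `2 ^ 2 ^ (n ^ m)` give the same Muchnik degree
    (∀ (m : ℕ) (f : ℕ → ℕ), (∀ n, 0 < f n) →
      (∀ᶠ n in atTop, 2 ^ 2 ^ n ≤ f n ∧ f n ≤ 2 ^ 2 ^ (n ^ m)) →
      MuchEquiv (IOE (fun n => 2 ^ 2 ^ n)) (IOE f)) ∧
    -- it is not true that `IOE(f) <_W IOE(n ↦ f (n ^ 2))` for all order functions `f`
    (∃ f : ℕ → ℕ, IsOrder f ∧ ¬ MuchLT (IOE f) (IOE (fun n => f (n ^ 2)))) ∧
    -- the sets in question are indeed mass problems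
    (∀ h : ℕ → ℕ, (IOE h).Nonempty) := by
  have hcomp : ∀ m : ℕ, Computable (fun n : ℕ => 2 ^ 2 ^ (n ^ m)) := fun m =>
    (primrec_pow.comp (Primrec.const 2) (primrec_pow.comp (Primrec.const 2)
      (primrec_pow.comp Primrec.id (Primrec.const m)))).to_comp
  refine ⟨⟨fun n => 2 ^ 2 ^ (n ^ 2), hcomp 2, ?_, ?_⟩, ?_, ?_, IOE_nonempty⟩
  · intro a
    rw [eventually_atTop]
    refine ⟨a + 1, ?_⟩
    intro n hn
    refine Nat.pow_lt_pow_right (by norm_num) ?_
    calc a ^ n < (2 ^ a) ^ n := Nat.pow_lt_pow_left Nat.lt_two_pow_self (by omega)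
      _ ≤ (2 ^ n) ^ n := Nat.pow_le_pow_left (Nat.pow_le_pow_right (by norm_num) (by omega)) _
      _ = 2 ^ n ^ 2 := by rw [← pow_mul, sq]
  · refine equiv_of_between (m := 2) (fun n => by positivity) ?_
    refine Filter.Eventually.of_forall ?_
    intro n
    refine ⟨?_, le_rfl⟩
    refine Nat.pow_le_pow_right (by norm_num) (Nat.pow_le_pow_right (by norm_num) ?_)
    exact Nat.le_self_pow (by norm_num) n
  · intro m f hpos hf
    exact equiv_of_between hpos hf
  · refine ⟨fun n => 2 ^ 2 ^ n, ⟨?_, ?_, ?_⟩, ?_⟩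
    · simpa using hcomp 1
    · intro a b hab
      exact Nat.pow_le_pow_right (by norm_num) (Nat.pow_le_pow_right (by norm_num) hab)
    · intro N
      exact ⟨N, lt_trans Nat.lt_two_pow_self
        (Nat.pow_lt_pow_right (by norm_num) Nat.lt_two_pow_self)⟩
    · intro h
      exact h.2 (main 2)

end Pool.Agent.Results.MP_2c929a_lc.DoubleExpPoly
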